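import Pool.Agent.W325.KZ.Defs

/-! Part SUM of project KZ: power sums. -/

set_option autoImplicit false

open Finset MeasureTheory ProbabilityTheory Filter Topology

namespace Pool.Agent.W906.KZ

open Pool.Agent.W325.KZ

theorem sum_le : S_SUM := by
  intro p
  refine ⟨((p.factorial : ℝ) + 1) * 2 ^ (p + 1), by positivity, ?_⟩
  intro D x S hx0 hx1 hS hor
  have hS0 : 0 < S := by linarith
  rcases hor with hD | hx
  · have h1 : ∀ k ∈ range D, (k : ℝ) ^ p * x ^ k ≤ (2 * S) ^ p := by
      intro k hk
      have hkD : (k : ℝ) ≤ D := by exact_mod_cast (mem_range.mp hk).le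
      calc (k : ℝ) ^ p * x ^ k ≤ (2 * S) ^ p * 1 := by
            apply mul_le_mul
            · exact pow_le_pow_left₀ (by positivity) (hkD.trans hD) p
            · exact pow_le_one₀ hx0 hx1
            · positivity
            · positivity
        _ = (2 * S) ^ p := by ring
    calc ∑ k ∈ range D, (k : ℝ) ^ p * x ^ k ≤ ∑ _k ∈ range D, (2 * S) ^ p := sum_le_sum h1
      _ = D * (2 * S) ^ p := by simp
      _ ≤ (2 * S) * (2 * S) ^ p := by
          apply mul_le_mul_of_nonneg_right hD (by positivity)
      _ = 1 * 2 ^ (p + 1) * S ^ (p + 1) := by rw [← pow_succ', mul_pow]; ring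
      _ ≤ ((p.factorial : ℝ) + 1) * 2 ^ (p + 1) * S ^ (p + 1) := by
          have : (0 : ℝ) ≤ p.factorial := by positivity
          gcongr
          linarith
  · have hxlt : x < 1 := by
      have : 0 < 1 / (2 * S) := by positivity
      linarith
    have hnorm : ‖x‖ < 1 := by rw [Real.norm_eq_abs, abs_of_nonneg hx0]; exact hxlt
    have hs := hasSum_choose_mul_geometric_of_norm_lt_one (𝕜 := ℝ) p hnorm
    have h1 : ∀ k ∈ range D, (k : ℝ) ^ p * x ^ k ≤
        p.factorial * (((k + p).choose p : ℝ) * x ^ k) := by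
      intro k hk
      have h2 : (k : ℝ) ^ p ≤ p.factorial * ((k + p).choose p : ℝ) := by
        have h3 : k ^ p ≤ p.factorial * (k + p).choose p := by
          have h4 := Nat.ascFactorial_eq_factorial_mul_choose k p
          rw [← h4]
          calc k ^ p ≤ (k + 1) ^ p := Nat.pow_le_pow_left (Nat.le_succ k) p
            _ ≤ (k + 1).ascFactorial p := Nat.pow_succ_le_ascFactorial (k + 1) p
        exact_mod_cast h3
      calc (k : ℝ) ^ p * x ^ k ≤ (p.factorial * ((k + p).choose p : ℝ)) * x ^ k := by gcongr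
        _ = _ := by ring
    have h5 : ∑ k ∈ range D, (((k + p).choose p : ℝ) * x ^ k) ≤ 1 / (1 - x) ^ (p + 1) := by
      apply sum_le_hasSum _ _ hs
      intro k _
      positivity
    have h6 : 1 / (1 - x) ^ (p + 1) ≤ (2 * S) ^ (p + 1) := by
      have h7 : 1 / (2 * S) ≤ 1 - x := by linarith
      calc 1 / (1 - x) ^ (p + 1) ≤ 1 / (1 / (2 * S)) ^ (p + 1) := by
            apply one_div_le_one_div_of_le (by positivity)
            exact pow_le_pow_left₀ (by positivity) h7 _
        _ = (2 * S) ^ (p + 1) := by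
            rw [one_div, one_div, inv_pow, inv_inv]
    calc ∑ k ∈ range D, (k : ℝ) ^ p * x ^ k
        ≤ ∑ k ∈ range D, p.factorial * (((k + p).choose p : ℝ) * x ^ k) := sum_le_sum h1
      _ = p.factorial * ∑ k ∈ range D, (((k + p).choose p : ℝ) * x ^ k) := by rw [mul_sum]
      _ ≤ p.factorial * (2 * S) ^ (p + 1) := by
          apply mul_le_mul_of_nonneg_left (h5.trans h6) (by positivity)
      _ = (p.factorial : ℝ) * 2 ^ (p + 1) * S ^ (p + 1) := by rw [mul_pow]; ring
      _ ≤ ((p.factorial : ℝ) + 1) * 2 ^ (p + 1) * S ^ (p + 1) := by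
          gcongr
          linarith

end Pool.Agent.W906.KZ
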